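import Pool.Agent.K1H5.PP.Stm
import Pool.Agent.H26R2.Kap2.Main

/-!
Project PP: the trace argument.
-/

set_option autoImplicit false

namespace Pool.Agent.K1H36.PP

open MonoidAlgebra
open Pool.Agent.K1H5.PP
open Pool.Agent.H40R2.Zd (fs fs_single)
open Pool.Agent.H23R2.Cyc (tf tf_apply)
open Pool.Agent.H26R2.IdemLI (ch ch_coeff ch_injective AlmostDiv det_bot U cind)
open Pool.Agent.H26R2.Bass
open Pool.Agent.H26R2.Kap2 (zero_of_vanish)

universe u v w

lemma ch_single {A B : Type} [CommRing A] [CommRing B] (θ : A →+* B) {G : Type u} [Group G]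
    (h : G) (r : A) : ch θ G (single h r) = single h (θ r) := by
  classical
  ext y
  rw [ch_coeff, coeff_single, coeff_single, Finsupp.single_apply, Finsupp.single_apply]
  split_ifs
  · rfl
  · exact map_zero _

lemma fs_ch {A B : Type} [CommRing A] [CommRing B] (θ : A →+* B) {G : Type u} [Group G]
    {Q : Type v} [Group Q] (f : G →* Q) (x : MonoidAlgebra A G) :
    fs B f (ch θ G x) = ch θ Q (fs A f x) := by
  induction x using MonoidAlgebra.induction_linear with
  | zero => simp
  | add x y hx hy => rw [map_add, map_add, hx, hy, map_add, map_add]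
  | single h r => rw [ch_single, fs_single, fs_single, ch_single]

/-- elements at which the rank of an integral idempotent matrix does not vanish -/
theorem divisible_of_tf {G : Type u} [Group G] {n : ℕ}
    (E : Matrix (Fin n) (Fin n) (MonoidAlgebra ℤ G)) (hE : E * E = E) (g : G) (hg1 : g ≠ 1)
    (hne : tf (ind ℤ g) E ≠ 0) : Divisible g := by
  refine ⟨fun m hm hgm => ?_, fun p hp => ?_, ?_, fun φ z hz => ?_⟩
  · have hfin : orderOf g ≠ 0 :=
      (orderOf_pos_iff.2 (isOfFinOrder_iff_pow_eq_one.2 ⟨m, hm, hgm⟩)).ne'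
    apply hne
    apply tf_zero_of_finite E hE g hfin
    intro hu
    apply hg1
    rw [Int.isUnit_iff] at hu
    have : orderOf g = 1 := by omega
    exact orderOf_eq_one_iff.1 this
  · by_contra hcon
    push Not at hcon
    exact hne (tf_zero_of_good E hE g
      (Or.inr (Or.inl ⟨p, hp, (Nat.prime_iff_prime_int.1 hp).not_isUnit, hcon⟩)))
  · obtain ⟨m, J, hm, hJ, h⟩ := almostDiv_of_tf E hE g hne
    exact ⟨m, J, by omega, hJ, h⟩
  · by_contra hcon
    apply hne
    apply tf_zero_of_good E hE g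
    left
    let ψ : ℚ ≃ₐ[ℤ] FractionRing ℤ := (FractionRing.algEquiv ℤ ℚ).symm
    let ψ' : ℚ →+ FractionRing ℤ := (ψ : ℚ ≃+* FractionRing ℤ).toRingHom.toAddMonoidHom
    refine ⟨(AddMonoidHom.toMultiplicative ψ').comp φ, z, hz, ?_⟩
    intro h
    apply hcon
    have h1 : ψ (Multiplicative.toAdd (φ z)) = 0 := congrArg Multiplicative.toAdd h
    have h2 : Multiplicative.toAdd (φ z) = 0 := by
      apply ψ.injective
      rw [h1, map_zero]
    exact congrArg Multiplicative.ofAdd h2

theorem t_TR (hVN : S_VN.{u}) : S_TR.{u} := by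
  intro G _ n E hE hE0 M _ hM
  by_contra hcon
  push Not at hcon
  apply hE0
  have hinj : Function.Injective (Int.castRingHom ℚ) := Int.cast_injective
  have hE' : E.map (ch (Int.castRingHom ℚ) G) * E.map (ch (Int.castRingHom ℚ) G) =
      E.map (ch (Int.castRingHom ℚ) G) := by
    rw [← Matrix.map_mul, hE]
  have h0 : (E.map (ch (Int.castRingHom ℚ) G)).map (fs ℚ (QuotientGroup.mk' M)) = 0 := by
    ext1 i j
    rw [Matrix.map_apply, Matrix.map_apply, Matrix.zero_apply, fs_ch]
    have : fs ℤ (QuotientGroup.mk' M) (E i j) = 0 := (hVN G M (E i j)).1 (hM i j)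
    rw [this, map_zero]
  have h1 : (E.map (ch (Int.castRingHom ℚ) G)).map
      (fs ℚ (QuotientGroup.mk' (⊥ : Subgroup G))) = 0 := by
    refine zero_of_vanish _ hE' ⊥ M bot_le (fun g hg hg1 => ?_) h0
    rw [Subgroup.mem_bot] at hg1
    rw [U_eq_ell, map_sum, ← tf_apply, tf_ch]
    have : tf (ind ℤ g) E = 0 := by
      by_contra hne
      exact hcon g hg (divisible_of_tf E hE g hg1 hne)
    rw [this, map_zero]
  have h2 := det_bot (K := ℚ) (G := G) n _ hE' h1
  ext1 i j
  apply ch_injective (Int.castRingHom ℚ) hinj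
  rw [Matrix.zero_apply, map_zero]
  exact congrFun (congrFun h2 i) j

end Pool.Agent.K1H36.PP
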